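import Pool.Agent.Lib.TWE_h25.Mob

/-!
# TANK W: dimension four, with `p`-divisible value group in rational rank one
-/

set_option autoImplicit false

namespace Pool.Agent.TW

open Pool.Agent.H15JM (RVal)
open Pool.Agent.LU1 (VPos adj)
open Pool.Agent.LUC (Cl LUs)
open Pool.Agent.D2 (Ctx0)
open Pool.Agent.D2P (hen mem_hen isAlgebraic_mono)

universe u

section

variable {k Ω : Type u} [Field k] [Field Ω] [Algebra k Ω] {v : RVal Ω} {r : ℕ}

/-- `lus_codim_one` for the fields without bounded distortion. -/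
theorem lus_codim_one_nbd [IsAlgClosed Ω] [IsAlgClosed k] (p : ℕ) [Fact p.Prime] [CharP k p]
    [CharP Ω p] (h : Ctx k v r) {n : ℕ} (hLU : ∀ m, r + 2 ≤ m → m < n → LUB p v k r m)
    {E : IntermediateField k Ω} (hE : E.FG) (hΩ : ∀ g : Ω, IsAlgebraic E g)
    (htr : Algebra.trdeg k E = n) (hBD : ¬ BD p v E)
    (hcore : ∀ L₀ : IntermediateField k Ω, L₀.FG → Full v L₀ → (∀ e ∈ E, LimAlg v L₀ e) →
      Algebra.trdeg k L₀ + 2 ≤ Algebra.trdeg k E → DefL v L₀ 1) :
    LUs v (algebraMap k Ω).range E.toSubfield := by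
  classical
  have hfull : Full v E := full_of_alg hΩ
  have hposE := hfull.exists_pos h
  by_cases hsmall : n ≤ r + 1
  · exact lus_of_defL p h.triv hE hposE (R3.defL h hfull (by rw [htr]; exact_mod_cast hsmall))
  obtain ⟨m, s, t, t', hind, htE, ht'E, hsep, hp, hl, hfar⟩ := exists_core h.triv hE hposE
  have ht : AlgebraicIndependent k t := by
    have := hind.comp Sum.inl Sum.inl_injective
    simpa [Function.comp_def] using this
  set C := IntermediateField.adjoin k (Set.range t) with hC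
  have hCfg : C.FG := IntermediateField.fg_adjoin_of_finite (Set.finite_range _)
  have hEC : ∀ e ∈ E, LimAlg v C e := by
    intro e he
    refine LimAlg.field hp (S := Set.range t') (by rintro _ ⟨i, rfl⟩; exact hl i)
      (isAlgebraic_mono ?_ (hsep e he).isIntegral.isAlgebraic)
    refine IntermediateField.adjoin.mono k _ _ (Set.union_subset_union_left _ ?_)
    exact IntermediateField.subset_adjoin k _
  have hCfull : Full v C := R4.full_of_lim hfull hEC
  have hCtr : Algebra.trdeg k C = m := by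
    rw [hC, trdeg_adjoin_eq ht.to_subtype_range]
    have h1 := Cardinal.mk_range_eq_of_injective ht.injective
    simpa using h1
  set M := IntermediateField.adjoin k (Set.range t ∪ Set.range t') with hM
  have hME : M ≤ E := by
    rw [hM, IntermediateField.adjoin_le_iff]
    rintro _ (⟨i, rfl⟩ | ⟨i, rfl⟩)
    · exact htE i
    · exact ht'E i
  have hms : m + s = n := by
    have h1 : Algebra.trdeg k M = ((m + s : ℕ) : Cardinal) := by
      rw [hM, ← Set.Sum.elim_range, trdeg_adjoin_eq hind.to_subtype_range]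
      have h1 := Cardinal.mk_range_eq_of_injective hind.injective
      simpa using h1
    have h2 := trdeg_eq_of_alg hME fun a ha => (hsep a ha).isIntegral.isAlgebraic
    rw [h1, htr] at h2
    exact_mod_cast h2.symm
  have hCBD : BD p v C := bd_of_not_limAlg p h.toCtx0 ht hfar
  by_cases hC1 : m ≤ r + 1
  · exact lus_of_limAlg p h.triv hE hΩ hposE hCfg hp
      (R3.defL h hCfull (by rw [hCtr]; exact_mod_cast hC1)) hEC
  by_cases hs2 : 2 ≤ s
  · refine lus_of_limAlg p h.triv hE hΩ hposE hCfg hp (hcore C hCfg hCfull hEC ?_) hEC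
    rw [hCtr, htr]
    exact_mod_cast (by omega : m + 2 ≤ n)
  have hSE := hE
  obtain ⟨S, hS⟩ := hSE
  have hSE : ∀ s ∈ S, s ∈ E := by
    intro s hs
    rw [← hS]
    exact IntermediateField.subset_adjoin k _ hs
  obtain ⟨θ, hθ, hEθ'⟩ := D2P.H0aux.exists_prim (T := M) S fun s hs => hsep s (hSE s hs)
  have hEθ : adj M θ = E := by
    rw [hEθ', hS]
    exact sup_eq_right.2 hME
  rcases Nat.eq_zero_or_pos s with rfl | hs0
  · exfalso
    have hMC : M = C := by
      rw [hM, hC, Set.range_eq_empty t', Set.union_empty]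
    rw [hMC] at hθ hEθ
    exact hBD (by rw [← hEθ]; exact BD.sep p h.toCtx0 hCfg hCBD hθ)
  obtain rfl : s = 1 := by omega
  have hMC : adj C (t' 0) = M := by
    rw [adj, hC, ← IntermediateField.adjoin_union, hM]
    congr 2
    ext x
    constructor
    · rintro rfl
      exact ⟨0, rfl⟩
    · rintro ⟨i, rfl⟩
      rw [Subsingleton.elim i 0]
      rfl
  have hw : Transcendental C (t' 0) := by
    rw [hC, IntermediateField.transcendental_adjoin_iff]
    have h1 : (Sum.inr 0 : Fin m ⊕ Fin 1) ∉ Set.range (Sum.inl : Fin m → Fin m ⊕ Fin 1) := by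
      rintro ⟨a, ha⟩
      cases ha
    have h2 := hind.transcendental_adjoin h1
    rwa [← Set.range_comp, Sum.elim_comp_inl] at h2
  rw [← hMC] at hθ hEθ
  have hΩ' : ∀ g : Ω, IsAlgebraic (adj C (t' 0)) g := by
    intro g
    rw [hMC]
    exact D2P.isAlgebraic_trans (fun a ha => (hsep a ha).isIntegral.isAlgebraic) (hΩ g)
  obtain ⟨z, hz, hzl, hh⟩ := exists_gen_of_limAlg h.toCtx0 hp hw hθ (hl 0) hΩ'
  rw [hEθ] at hh
  exact lus_of_adj_bd p h hCfg hCfull hCBD hCtr (hLU m (by omega) (by omega)) hz hE hΩ hh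

end

section

variable {k : Type u} [Field k] [IsAlgClosed k] (p : ℕ) [Fact p.Prime] [CharP k p]

include p

/-- Dimension at most three. -/
theorem lub_le_three {n : ℕ} (hn : n ≤ 3) (Ω : Type u) [Field Ω] [Algebra k Ω] [IsAlgClosed Ω]
    [CharP Ω p] (v : RVal Ω) (r : ℕ) (h : Ctx k v r) : LUB p v k r n := by
  refine lub_of_mob_all p 3 ?_ n hn Ω v r h
  intro Ω' _ _ _ _ v' r' n' h' h1 h2
  have hrpos := h'.rpos
  obtain rfl : n' = r' + 2 := by omega
  exact mobQ0_two p h'

/-- Dimension four, rational rank at least two. -/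
theorem lub_four_rank (Ω : Type u) [Field Ω] [Algebra k Ω] [IsAlgClosed Ω] [CharP Ω p]
    (v : RVal Ω) (r : ℕ) (h : Ctx k v r) (hr : 2 ≤ r) : LUB p v k r 4 := by
  by_cases hr3 : 3 ≤ r
  · exact lu_bd p h 4 (fun n' h1 h2 => by omega) 4 le_rfl
  obtain rfl : r = 2 := by omega
  refine lub_transfer p h ?_
  intro Ω' _ _ _ _ v' h' E hE hΩ htr hBD
  refine (lub_of_mob p h' (n := 4) le_rfl (mobQ0_two p h')
    (fun m hm => lub_le_three p (by omega) Ω' v' 2 h') ?_ hE hΩ htr hBD).2
  intro W hW E' hE' hΩ'' htr'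
  exact lus_rank_dim p 4 3 (by omega) (fun v'' r'' _ h1 h2 => by omega) 1 W 3 hW le_rfl rfl
    E' hE' hΩ'' htr'

/-- Dimension four, rational rank one, `p`-divisible value group. -/
theorem lubP_four
    (hMob : ∀ (Ω : Type u) [Field Ω] [Algebra k Ω] [IsAlgClosed Ω] [CharP Ω p] (v : RVal Ω),
      Ctx k v 1 → MobQ0P p v k 1 4)
    (Ω : Type u) [Field Ω] [Algebra k Ω] [IsAlgClosed Ω] [CharP Ω p] (v : RVal Ω)
    (h : Ctx k v 1) : LUBP p v k 1 4 := by
  refine lub_transferP p h ?_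
  intro Ω' _ _ _ _ v' h' E hE hΩ htr hBD hPD
  refine (lub_of_mobP p h' (n := 4) (by omega) (hMob Ω' v' h')
    (fun m hm => lub_le_three p (by omega) Ω' v' 1 h') ?_ hE hΩ htr hBD hPD).2
  intro W hW E' hE' hΩ'' htr'
  exact lus_rank_dim p 4 2 le_rfl (fun v'' r'' h'' h1 _ => lub_four_rank p Ω' v'' r'' h'' h1)
    2 W 2 hW le_rfl rfl E' hE' hΩ'' htr'

/-- DIMENSION AT MOST FOUR, with `p`-divisible value group in dimension four. -/
theorem lus_four_of_mobP
    (hMob : ∀ (Ω : Type u) [Field Ω] [Algebra k Ω] [IsAlgClosed Ω] [CharP Ω p] (v : RVal Ω),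
      Ctx k v 1 → MobQ0P p v k 1 4)
    (Ω : Type u) [Field Ω] [Algebra k Ω] [IsAlgClosed Ω] [CharP Ω p] (v : RVal Ω) (r : ℕ)
    (h : Ctx k v r) (E : IntermediateField k Ω) (hE : E.FG) (hΩ : ∀ g : Ω, IsAlgebraic E g)
    {n : ℕ} (htr : Algebra.trdeg k E = n) (hn : n ≤ 3 ∨ (n = 4 ∧ PDv p v E)) :
    LUs v (algebraMap k Ω).range E.toSubfield := by
  rcases hn with hn3 | ⟨rfl, hPD⟩
  · exact lus_dim_le_four p (by omega) (fun v' r' h' m _ hm =>
      lub_le_three p (hm.trans hn3) Ω v' r' h') h hE hΩ htr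
  have hfull : Full v E := full_of_alg hΩ
  have hrn : r ≤ 4 := hfull.rank_le h htr
  have hrpos := h.rpos
  by_cases hr : 2 ≤ r
  · obtain ⟨m, hm⟩ := Nat.exists_eq_add_of_le hrn
    exact lus_rank_dim p 4 2 le_rfl (fun v'' r'' h'' h1 _ => lub_four_rank p Ω v'' r'' h'' h1)
      m v r h hr hm.symm E hE hΩ htr
  obtain rfl : r = 1 := by omega
  by_cases hBD : BD p v E
  · exact LU.lusP p h hE hfull hBD hPD htr (lubP_four p hMob Ω v h) hΩ
  refine lus_codim_one_nbd p h (fun m' _ h2 => lub_le_three p (by omega) Ω v 1 h) hE hΩ htr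
    hBD ?_
  intro L₀ _ hfull₀ _ h2
  refine R3.defL h hfull₀ ?_
  rw [htr] at h2
  have h3 : Algebra.trdeg k L₀ < Cardinal.aleph0 :=
    ((self_le_add_right _ _).trans h2).trans_lt Cardinal.natCast_lt_aleph0
  obtain ⟨d, hd⟩ := Cardinal.lt_aleph0.1 h3
  rw [hd] at h2 ⊢
  have h4 : d + 2 ≤ 4 := by exact_mod_cast h2
  exact_mod_cast (by omega : d ≤ 1 + 1)

end

end Pool.Agent.TW
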