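import Pool.Agent.Lib.TWE_h25.All
import Pool.Agent.Lib.TW.TwoAll
import Pool.Agent.Lib.TW.TopN

/-!
# TANK W: the class of the real valuations of dimension at most four, with `p`-divisible value group
in dimension four
-/

set_option autoImplicit false

namespace Pool.Agent.TW

open Pool.Agent.H15JM (RVal)
open Pool.Agent.LU2 Pool.Agent.LU2G Pool.Agent.LU2H
open Pool.Agent.LUC (LUs)
open Pool.Agent.D2 (lur_of_lurV)

universe u

/-- The values of the elements of `M` are divisible by `p` in the group of these values. -/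
def DivOn {k K : Type u} [Field k] [Field K] [Algebra k K] (p : ℕ) (V : ValuationSubring K)
    (M : IntermediateField k K) : Prop :=
  ∀ f ∈ M, f ≠ 0 → ∃ g ∈ M, g ≠ 0 ∧ f / g ^ p ∈ V ∧ g ^ p / f ∈ V

theorem DivOn.pdv {k K : Type u} [Field k] [Field K] [Algebra k K] {p : ℕ}
    {V : ValuationSubring K} {M : IntermediateField k K} {Ω : Type u} [Field Ω] [Algebra k Ω]
    {v : RVal Ω} {L : IntermediateField k Ω} (e : K →ₐ[k] Ω) (hML : M.map e = L)
    (hV : ∀ g : K, g ≠ 0 → (g ∈ V ↔ 0 ≤ v (e g))) : DivOn p V M ↔ PDv p v L := by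
  subst hML
  have he : ∀ g : K, g ≠ 0 → e g ≠ 0 := fun g hg => (_root_.map_ne_zero e).2 hg
  have key : ∀ f g : K, f ≠ 0 → g ≠ 0 →
      ((f / g ^ p ∈ V ∧ g ^ p / f ∈ V) ↔ v (e f) = p * v (e g)) := by
    intro f g hf hg
    have hgp := pow_ne_zero p hg
    rw [hV _ (div_ne_zero hf hgp), hV _ (div_ne_zero hgp hf), map_div₀, map_div₀, map_pow,
      v.map_div (he f hf) (pow_ne_zero p (he g hg)),
      v.map_div (pow_ne_zero p (he g hg)) (he f hf), v.map_pow (he g hg)]
    constructor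
    · rintro ⟨h1, h2⟩
      linarith
    · intro h1
      constructor <;> linarith
  constructor
  · rintro h _ ⟨f, hf, rfl⟩ hf0
    have hf0' : f ≠ 0 := by
      rintro rfl
      exact hf0 (map_zero e)
    obtain ⟨g, hg, hg0, h1⟩ := h f hf hf0'
    exact ⟨e g, ⟨g, hg, rfl⟩, he g hg0, (key f g hf0' hg0).1 h1⟩
  · intro h f hf hf0
    obtain ⟨_, ⟨g, hg, rfl⟩, hg0, h1⟩ := h (e f) ⟨f, hf, rfl⟩ (he f hf0)
    have hg0' : g ≠ 0 := by
      rintro rfl
      exact hg0 (map_zero e)
    exact ⟨g, hg, hg0', (key f g hf0 hg0').2 h1⟩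

/-- For the valuation rings of rank one, `p`-divisibility does not depend on the finitely generated
subfield over which the field is algebraic. -/
theorem DivOn.congr {k K : Type u} [Field k] [Field K] [Algebra k K] {p : ℕ} (hp : p.Prime)
    {V : ValuationSubring K} (hR : IsR1 V) {M M' : IntermediateField k K} (hM : M.FG)
    (hM' : M'.FG) (halg : ∀ g : K, IsAlgebraic M g) (halg' : ∀ g : K, IsAlgebraic M' g)
    (h : DivOn p V M) : DivOn p V M' := by
  obtain ⟨v, -, hrel, -⟩ := LUC.exists_entry V hR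
  have hV : ∀ g : K, g ≠ 0 → (g ∈ V ↔ 0 ≤ v (AlgHom.id k K g)) := fun g hg => hrel g hg
  have hid : ∀ N : IntermediateField k K, N.map (AlgHom.id k K) = N := fun N => by
    ext x
    exact ⟨fun ⟨y, hy, h⟩ => h ▸ hy, fun hx => ⟨x, hx, rfl⟩⟩
  rw [DivOn.pdv (AlgHom.id k K) (hid _) hV] at h ⊢
  have h1 : PDv p v (M ⊔ M') := h.up hp le_sup_left fun g _ => halg g
  exact h1.down hp le_sup_right (IntermediateField.fg_sup hM hM') fun g _ => halg' g

/-- Residue field `k`, and transcendence degree at most three, or transcendence degree four and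
`p`-divisible value group. -/
def DivCls (p : ℕ) (k : Type u) [Field k] : Cls k := fun K _ _ V =>
  (∀ f ∈ V, ∃ c : k, V.valuation (f - algebraMap k K c) < 1) ∧
    ∃ m : ℕ, Algebra.trdeg k K = m ∧ (m ≤ 3 ∨ (m = 4 ∧ ∀ M : IntermediateField k K, M.FG →
      (∀ g : K, IsAlgebraic M g) → DivOn p V M))

theorem DivCls.sub (p : ℕ) (k : Type u) [Field k] : (DivCls p k).Sub := by
  rintro K _ _ V hk hfin ⟨h0, m, hm, h⟩ L
  refine ⟨ZeroCls.sub k K V hk hfin h0 L, ?_⟩
  have hLle : Algebra.trdeg k L ≤ Algebra.trdeg k K :=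
    _root_.trdeg_le_of_injective L.val L.val.injective
  obtain ⟨m', hm'⟩ := Cardinal.lt_aleph0.1 (hLle.trans_lt hfin)
  have hmm : m' ≤ m := by
    rw [hm, hm'] at hLle
    exact_mod_cast hLle
  refine ⟨m', hm', ?_⟩
  by_cases h3 : m' ≤ 3
  · exact Or.inl h3
  rcases h with h | ⟨rfl, h⟩
  · exact absurd (hmm.trans h) h3
  obtain rfl : m' = 4 := by omega
  refine Or.inr ⟨rfl, fun M' hM' halg' => ?_⟩
  have hMfg : (M'.map L.val).FG := by
    obtain ⟨S, hS⟩ := hM'
    classical
    refine ⟨S.image L.val, ?_⟩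
    rw [Finset.coe_image, ← IntermediateField.adjoin_map, hS]
  have htM' : Algebra.trdeg k M' = 4 := by
    have h1 : Algebra.IsAlgebraic M' L := ⟨halg'⟩
    have h2 := trdeg_add_eq k M' (A := L)
    rw [trdeg_eq_zero (R := M') (A := L), add_zero, hm'] at h2
    exact_mod_cast h2
  have htM : Algebra.trdeg k (M'.map L.val) = (4 : ℕ) := by
    rw [← (M'.equivMap L.val).trdeg_eq, htM']
    rfl
  have htop : Algebra.trdeg k (⊤ : IntermediateField k K) = (4 : ℕ) := by
    rw [IntermediateField.topEquiv.trdeg_eq, hm]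
  have halg : ∀ g : K, IsAlgebraic (M'.map L.val : IntermediateField k K) g :=
    isAlgebraic_of_trdeg_eq htM htop fun g => isAlgebraic_algebraMap
      (⟨g, IntermediateField.mem_top⟩ : (⊤ : IntermediateField k K))
  intro f hf hf0
  obtain ⟨_, ⟨g, hg, rfl⟩, hg0, h1, h2⟩ := h _ hMfg halg (f : K) ⟨f, hf, rfl⟩
    (fun h0 => hf0 (Subtype.ext h0))
  refine ⟨g, hg, fun h0 => hg0 (by rw [h0]; rfl), ?_, ?_⟩
  · rw [ValuationSubring.mem_comap]
    simpa using h1
  · rw [ValuationSubring.mem_comap]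
    simpa using h2

/-- The exit. -/
theorem realCls_div (p : ℕ) [Fact p.Prime] {k : Type u} [Field k] [IsAlgClosed k] [CharP k p]
    (hMob : ∀ (Ω : Type u) [Field Ω] [Algebra k Ω] [IsAlgClosed Ω] [CharP Ω p] (v : RVal Ω),
      Ctx k v 1 → MobQ0P p v k 1 4) :
    RealCls (DivCls p k) := by
  rintro K _ _ hK V hk hR ⟨hres, m, hm, hcase⟩
  refine lur_of_lurV (lurV_at (m := m) V ?_ hK hk hR hres hm)
  intro Ω _ _ _ v r L e hctx hr hV hL halg
  have : CharP Ω p := charP_of_injective_algebraMap (algebraMap k Ω).injective p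
  refine lus_four_of_mobP p hMob Ω v r (ctx_of_ctxR hctx hr) L hL halg (n := m) ?_ ?_
  · rw [← e.trdeg_eq, hm]
  rcases hcase with h3 | ⟨rfl, h4⟩
  · exact Or.inl h3
  · refine Or.inr ⟨rfl, ?_⟩
    have h5 := h4 ⊤ hK fun g => isAlgebraic_algebraMap
      (⟨g, IntermediateField.mem_top⟩ : (⊤ : IntermediateField k K))
    let e' : K →ₐ[k] Ω := L.val.comp e.toAlgHom
    refine (DivOn.pdv e' ?_ hV).1 h5
    ext x
    constructor
    · rintro ⟨y, -, rfl⟩
      exact (e y).2
    · intro hx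
      refine ⟨e.symm ⟨x, hx⟩, IntermediateField.mem_top, ?_⟩
      change ((e (e.symm ⟨x, hx⟩) : L) : Ω) = x
      rw [e.apply_symm_apply]

end Pool.Agent.TW
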