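import Pool.Agent.Lib.TWW.WM15

/-!
# TANK W: fields with `p`-divisible value group
-/

set_option autoImplicit false

open Polynomial

namespace Pool.Agent.TW

open Pool.Agent.H15JM (RVal)

universe u

variable {k Ω : Type u} [Field k] [Field Ω] [Algebra k Ω] {v : RVal Ω}

/-- The group of the values of `E` is `p`-divisible. -/
def PDv (p : ℕ) (v : RVal Ω) (E : IntermediateField k Ω) : Prop :=
  ∀ f ∈ E, f ≠ 0 → ∃ g ∈ E, g ≠ 0 ∧ v f = p * v g

/-- A multiple of the value of an algebraic element, bounded by the degree. -/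
theorem exists_mul_val {M : IntermediateField k Ω} {g : Ω} (hg : g ≠ 0) {P : M[X]} (hP : P ≠ 0)
    (hPg : aeval g P = 0) :
    ∃ m : ℕ, 0 < m ∧ m ≤ P.natDegree ∧ ∃ c ∈ M, c ≠ 0 ∧ v c = m * v g := by
  rw [aeval_def, eval₂_eq_sum, sum_def] at hPg
  have hne : ∃ i ∈ P.support, algebraMap M Ω (P.coeff i) * g ^ i ≠ 0 := by
    obtain ⟨i, hi⟩ := (Polynomial.nonempty_support_iff).mpr hP
    refine ⟨i, hi, mul_ne_zero ?_ (pow_ne_zero _ hg)⟩
    rw [_root_.map_ne_zero]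
    exact mem_support_iff.mp hi
  obtain ⟨i, hi, j, hj, hij, hfi, hfj, heq⟩ := LU1.ExtVal_H2.two_min v _ _ hPg hne
  have key : ∀ i j : ℕ, i < j → j ≤ P.natDegree → algebraMap M Ω (P.coeff i) * g ^ i ≠ 0 →
      algebraMap M Ω (P.coeff j) * g ^ j ≠ 0 →
      v (algebraMap M Ω (P.coeff i) * g ^ i) = v (algebraMap M Ω (P.coeff j) * g ^ j) →
      ∃ m : ℕ, 0 < m ∧ m ≤ P.natDegree ∧ ∃ c ∈ M, c ≠ 0 ∧ v c = m * v g := by
    intro i j hij hjn hfi hfj heq
    have hi0 := left_ne_zero_of_mul hfi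
    have hj0 := left_ne_zero_of_mul hfj
    refine ⟨j - i, Nat.sub_pos_of_lt hij, by omega,
      algebraMap M Ω (P.coeff i) / algebraMap M Ω (P.coeff j),
      div_mem (P.coeff i).2 (P.coeff j).2, div_ne_zero hi0 hj0, ?_⟩
    rw [v.map_mul hi0 (pow_ne_zero _ hg), v.map_pow hg, v.map_mul hj0 (pow_ne_zero _ hg),
      v.map_pow hg] at heq
    rw [div_eq_mul_inv, v.map_mul hi0 (inv_ne_zero hj0), v.map_inv hj0, Nat.cast_sub hij.le]
    linarith
  rcases lt_or_gt_of_ne hij with h1 | h1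
  · exact key i j h1 (le_natDegree_of_mem_supp _ hj) hfi hfj heq
  · exact key j i h1 (le_natDegree_of_mem_supp _ hi) hfj hfi heq.symm

/-- A prime to `p` multiple which is divisible by `p` is enough. -/
theorem pdiv_of_coprime {p : ℕ} {m' : ℕ} (hm : Nat.Coprime m' p)
    {E : IntermediateField k Ω} {f c : Ω} (hf : f ∈ E) (hf0 : f ≠ 0) (hc : c ∈ E) (hc0 : c ≠ 0)
    (h : (m' : ℝ) * v f = p * v c) : ∃ g ∈ E, g ≠ 0 ∧ v f = p * v g := by
  have hb := Nat.gcd_eq_gcd_ab m' p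
  rw [Nat.Coprime.gcd_eq_one hm] at hb
  set u := Nat.gcdA m' p
  set w := Nat.gcdB m' p
  refine ⟨c ^ u * f ^ w, mul_mem (zpow_mem hc _) (zpow_mem hf _),
    mul_ne_zero (zpow_ne_zero _ hc0) (zpow_ne_zero _ hf0), ?_⟩
  rw [v.map_mul (zpow_ne_zero _ hc0) (zpow_ne_zero _ hf0), v.map_zpow hc0, v.map_zpow hf0]
  have hb' : (1 : ℝ) = m' * u + p * w := by exact_mod_cast hb
  calc v f = (m' * u + p * w) * v f := by rw [← hb', one_mul]
    _ = u * (m' * v f) + p * (w * v f) := by ring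
    _ = p * (u * v c + w * v f) := by rw [h]; ring

theorem PDv.iter {p : ℕ} {E : IntermediateField k Ω} (h : PDv p v E) (N : ℕ) :
    ∀ f ∈ E, f ≠ 0 → ∃ g ∈ E, g ≠ 0 ∧ v f = (p : ℝ) ^ N * v g := by
  induction N with
  | zero =>
    intro f hf hf0
    exact ⟨f, hf, hf0, by rw [pow_zero, one_mul]⟩
  | succ N ih =>
    intro f hf hf0
    obtain ⟨g, hg, hg0, hfg⟩ := ih f hf hf0
    obtain ⟨g', hg', hg0', hgg⟩ := h g hg hg0
    exact ⟨g', hg', hg0', by rw [hfg, hgg, pow_succ]; ring⟩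

/-- An algebraic extension of a field with `p`-divisible value group. -/
theorem PDv.up {p : ℕ} (hp : p.Prime) {M E : IntermediateField k Ω} (h : PDv p v M) (hME : M ≤ E)
    (halg : ∀ g ∈ E, IsAlgebraic M g) : PDv p v E := by
  intro f hf hf0
  obtain ⟨P, hP, hPf⟩ := halg f hf
  obtain ⟨m, hm, -, c, hc, hc0, hcv⟩ := exists_mul_val (v := v) hf0 hP hPf
  obtain ⟨a, m', hm', hmm⟩ := Nat.exists_eq_pow_mul_and_not_dvd hm.ne' p hp.ne_one
  obtain ⟨c', hc', hc0', hcc⟩ := h.iter (a + 1) c hc hc0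
  refine pdiv_of_coprime (m' := m') ((Nat.Prime.coprime_iff_not_dvd hp).2 hm').symm hf hf0
    (hME hc') hc0' ?_
  have hpa : (p : ℝ) ^ a ≠ 0 := pow_ne_zero _ (by exact_mod_cast hp.ne_zero)
  apply mul_left_cancel₀ hpa
  have h1 : v c = (p : ℝ) ^ a * m' * v f := by
    rw [hcv, hmm]
    push_cast
    ring
  rw [hcc, pow_succ] at h1
  linarith

/-- A field over which a field with `p`-divisible value group is algebraic of bounded degree. -/
theorem PDv.down_of {p : ℕ} (hp : p.Prime) {M E : IntermediateField k Ω} (h : PDv p v E)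
    (hME : M ≤ E) (n : ℕ)
    (halg : ∀ g ∈ E, ∃ P : M[X], P ≠ 0 ∧ P.natDegree ≤ n ∧ aeval g P = 0) : PDv p v M := by
  intro f hf hf0
  obtain ⟨y, hy, hy0, hfy⟩ := h.iter n f (hME hf) hf0
  obtain ⟨P, hP, hPn, hPy⟩ := halg y hy
  obtain ⟨m, hm, hmn, c, hc, hc0, hcv⟩ := exists_mul_val (v := v) hy0 hP hPy
  obtain ⟨b, m', hm', hmm⟩ := Nat.exists_eq_pow_mul_and_not_dvd hm.ne' p hp.ne_one
  have hm'0 : 0 < m' := Nat.pos_of_ne_zero (by rintro rfl; simp at hm')
  have hbn : b < n := by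
    have h1 : p ^ b ≤ m := by
      rw [hmm]
      exact Nat.le_mul_of_pos_right _ hm'0
    have h2 : p ^ b < p ^ n := h1.trans_lt ((hmn.trans hPn).trans_lt (Nat.lt_pow_self hp.one_lt))
    exact (Nat.pow_lt_pow_iff_right hp.one_lt).1 h2
  obtain ⟨d, hd⟩ := Nat.exists_eq_add_of_lt hbn
  refine pdiv_of_coprime (m' := m') (c := c ^ p ^ d)
    ((Nat.Prime.coprime_iff_not_dvd hp).2 hm').symm hf hf0
    (pow_mem hc _) (pow_ne_zero _ hc0) ?_
  rw [v.map_pow hc0, hcv, hmm, hfy, hd]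
  push_cast
  ring

/-- Bounded degree. -/
theorem exists_natDegree_le {M E : IntermediateField k Ω} (hE : E.FG)
    (halg : ∀ g ∈ E, IsAlgebraic M g) :
    ∃ n : ℕ, ∀ g ∈ E, ∃ P : M[X], P ≠ 0 ∧ P.natDegree ≤ n ∧ aeval g P = 0 := by
  classical
  obtain ⟨S, hS⟩ := hE
  let E' : IntermediateField M Ω := IntermediateField.adjoin M (S : Set Ω)
  have hfd : FiniteDimensional M E' := by
    refine IntermediateField.finiteDimensional_adjoin fun x hx => (halg x ?_).isIntegral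
    rw [← hS]
    exact IntermediateField.subset_adjoin k _ hx
  refine ⟨Module.finrank M E', fun g hg => ?_⟩
  have hgE' : g ∈ E' := by
    have h1 : E ≤ E'.restrictScalars k := by
      rw [← hS, IntermediateField.adjoin_le_iff]
      intro x hx
      exact IntermediateField.subset_adjoin M _ hx
    exact h1 hg
  refine ⟨minpoly M (⟨g, hgE'⟩ : E'), minpoly.ne_zero (Algebra.IsIntegral.isIntegral _),
    minpoly.natDegree_le _, ?_⟩
  have h1 := minpoly.aeval M (⟨g, hgE'⟩ : E')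
  have h2 := congrArg (algebraMap E' Ω) h1
  rw [← aeval_algebraMap_apply, map_zero] at h2
  exact h2

theorem PDv.down {p : ℕ} (hp : p.Prime) {M E : IntermediateField k Ω} (h : PDv p v E)
    (hME : M ≤ E) (hE : E.FG) (halg : ∀ g ∈ E, IsAlgebraic M g) : PDv p v M := by
  obtain ⟨n, hn⟩ := exists_natDegree_le hE halg
  exact h.down_of hp hME n hn

end Pool.Agent.TW
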